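import Pool.Agent.H.MP_b3d828_pr.C

set_option autoImplicit false
open MeasureTheory ProbabilityTheory Filter Topology Asymptotics
open Pool.Agent.H.MP_b3d828_pr

namespace Pool.Agent.Results.MP_cca6ac_pr.No

/-- probability tending to one -/
def AS (μ : ∀ n : ℕ, Measure (SimpleGraph (Fin n))) (A : ∀ n : ℕ, Set (SimpleGraph (Fin n))) :
    Prop :=
  Tendsto (fun n => (μ n).real (A n)) atTop (𝓝 1)

/-- `d = O(n / ln n)` -/
def Adm (d : ℕ → ℕ) : Prop :=
  (fun n => (d n : ℝ)) =O[atTop] (fun n : ℕ => (n : ℝ) / Real.log n)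

/-- threshold pair -/
def Thr (P : ∀ n : ℕ, Set (SimpleGraph (Fin n))) (L U : ℕ → ℕ → ℝ) : Prop :=
  (∀ n d, L n d ≤ U n d) ∧
  ∀ (d : ℕ → ℕ) (p : ℕ → ℝ), Adm d → (∀ n, 0 ≤ p n ∧ p n ≤ 1) →
    (p =o[atTop] (fun n => L n (d n)) →
      ∀ μ, (∀ n, Dep n (d n) (p n) (μ n)) → AS μ (fun n => (P n)ᶜ)) ∧
    ((fun n => U n (d n)) =o[atTop] p → ∀ μ, (∀ n, Dep n (d n) (p n) (μ n)) → AS μ P) ∧
    ((fun n => L n (d n)) =o[atTop] p → p =o[atTop] (fun n => U n (d n)) →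
      (∃ μ, (∀ n, Dep n (d n) (p n) (μ n)) ∧ AS μ P) ∧
      (∃ μ, (∀ n, Dep n (d n) (p n) (μ n)) ∧ AS μ (fun n => (P n)ᶜ)))

def PP (n : ℕ) : Set (SimpleGraph (Fin n)) :=
  {G | (∃ u v w, v ≠ w ∧ G.Adj u v ∧ G.Adj u w) ∨ √n ≤ G.edgeSet.ncard}

noncomputable def LL (n d : ℕ) : ℝ := if d = 0 then √n / n ^ 2 else 1 / n ^ 2

noncomputable def UU (n d : ℕ) : ℝ := max √n (d + 1) / n ^ 2

variable {n d : ℕ} {p : ℝ} {μ : Measure (SimpleGraph (Fin n))}

lemma ch_le (n : ℕ) : (n.choose 2 : ℝ) ≤ n ^ 2 := by exact_mod_cast Nat.choose_le_pow n 2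

lemma small0 (h : Dep n 0 p μ) (hn : 1 ≤ n) (hp : 0 ≤ p) :
    μ.real (PP n) ≤ p / (√n / n ^ 2) + (p / (√n / n ^ 2)) ^ 2 := by
  have hn' : (0 : ℝ) < n := by exact_mod_cast hn
  have hs : 0 < √(n : ℝ) := Real.sqrt_pos.2 hn'
  have h1 := h.cherry
  have h2 := h.markov √n
  have h3 : μ.real (PP n) ≤ _ := measureReal_union_le _ _
  have h4 : (p / (√n / n ^ 2)) ^ 2 = n ^ 3 * p ^ 2 := by
    rw [div_pow, div_pow, Real.sq_sqrt hn'.le]; field_simp
  have h5 : μ.real {G | √n ≤ G.edgeSet.ncard} ≤ p / (√n / n ^ 2) := by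
    rw [div_div_eq_mul_div, le_div_iff₀' hs]
    exact h2.trans (mul_le_mul_of_nonneg_left (ch_le n) hp)
  rw [h4]
  exact h3.trans ((add_le_add h1 h5).trans (add_comm _ _).le)

lemma ne_bot (hn : 1 ≤ n) {G : SimpleGraph (Fin n)} (hG : G ∈ PP n) : G ≠ ⊥ := by
  rintro rfl
  have hn' : (0 : ℝ) < n := by exact_mod_cast hn
  have hs : 0 < √(n : ℝ) := Real.sqrt_pos.2 hn'
  rcases hG with ⟨u, v, w, -, h, -⟩ | h
  · exact h
  · simp at h; linarith

lemma small1 (h : Dep n d p μ) (hn : 1 ≤ n) (hp : 0 ≤ p) : μ.real (PP n) ≤ p / (1 / n ^ 2) := by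
  have h2 := h.markov 1
  have := h.1
  rw [one_mul] at h2
  rw [div_div_eq_mul_div, div_one]
  refine le_trans (measureReal_mono (fun G hG => ?_) (measure_ne_top _ _))
    (h2.trans (mul_le_mul_of_nonneg_left (ch_le n) hp))
  have := (Set.ncard_pos (Set.toFinite _)).2 (SimpleGraph.edgeSet_nonempty.2 (ne_bot hn hG))
  simp only [Set.mem_ofPred_eq]
  exact_mod_cast this

lemma big (h : Dep n d p μ) (hn : 2 ≤ n) (hp : 0 < p) (hy : UU n d / p ≤ 1 / 8) :
    1 - μ.real (PP n) ≤ 16 * (UU n d / p) := by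
  have := h.1
  have hn' : (2 : ℝ) ≤ n := by exact_mod_cast hn
  have hn2 : (0 : ℝ) < n ^ 2 := by positivity
  have h1 := h.cheb hp.le
  have hc : (n : ℝ) ^ 2 ≤ 4 * n.choose 2 := by rw [Nat.cast_choose_two]; nlinarith
  set y := UU n d / p with hyd
  have h2 : max √(n : ℝ) (d + 1) = y * (p * n ^ 2) := by rw [hyd, UU]; field_simp
  have h3 := le_max_left √(n : ℝ) (d + 1)
  have h4 := le_max_right √(n : ℝ) (d + 1)
  have h5 : p * n ^ 2 ≤ 4 * (p * n.choose 2) := by nlinarith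
  have h0 : 0 < p * n ^ 2 := by positivity
  set M := p * n.choose 2
  have hM : 0 < M := by linarith
  have hy0 : 0 ≤ y := by
    by_contra h6
    nlinarith [(Nat.cast_nonneg d : (0 : ℝ) ≤ d)]
  rw [← probReal_compl_eq_one_sub (ms _)]
  have h6 : μ.real (PP n)ᶜ ≤ μ.real {G | (G.edgeSet.ncard : ℝ) ≤ M / 2} := by
    refine measureReal_mono (fun G hG => ?_) (measure_ne_top _ _)
    have h7 : ¬ √n ≤ G.edgeSet.ncard := fun h => hG (Or.inr h)
    simp only [Set.mem_ofPred_eq]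
    nlinarith
  refine h6.trans (le_of_mul_le_mul_left (h1.trans ?_) (by positivity : 0 < (M / 2) ^ 2))
  have h7 : (d : ℝ) + 1 ≤ y * (4 * M) := by nlinarith
  nlinarith

lemma has (n d : ℕ) (p : ℝ) (hp : 0 ≤ p ∧ p ≤ 1) : ∃ μ, Dep n d p μ ∧
    (d ≠ 0 → 4 ≤ n → 0 < p → 1 - μ.real (PP n) ≤ 64 * (LL n d / p)) := by
  let q : unitInterval := ⟨p, hp⟩
  by_cases hd : d = 0
  · exact ⟨_, (block q (cd n 1) 0 (cd_fib 0)).mono (Nat.zero_le _), fun h => absurd hd h⟩
  have hD := (block q (cd n 2) 1 (cd_fib 1)).mono (Nat.one_le_iff_ne_zero.2 hd)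
  refine ⟨_, hD, fun _ hn h0 => ?_⟩
  have := hD.1
  have h1 := cd_cherry (n := n) q
  have h2 := measureReal_mono (μ := (coin _ q).map (gr (cd n 2)))
    (s₁ := {G | ∃ u v w, v ≠ w ∧ G.Adj u v ∧ G.Adj u w}) (s₂ := PP n) (fun G hG => Or.inl hG)
    (measure_ne_top _ _)
  have h3 : n ≤ 8 * (n / 4) := by omega
  have h3 : (n : ℝ) ≤ 8 * (n / 4 : ℕ) := by exact_mod_cast h3
  have hn' : (4 : ℝ) ≤ n := by exact_mod_cast hn
  have h4 : p * n ^ 2 / 64 ≤ q * ((n / 4 : ℕ) * (n / 4 : ℕ)) := by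
    have : (n : ℝ) ^ 2 ≤ 64 * ((n / 4 : ℕ) * (n / 4 : ℕ)) := by nlinarith
    simp only [q]; nlinarith
  have h5 : Real.exp (-(q * ((n / 4 : ℕ) * (n / 4 : ℕ)))) ≤ (p * n ^ 2 / 64)⁻¹ := by
    rw [Real.exp_neg]
    exact inv_anti₀ (by positivity) (by linarith [Real.add_one_le_exp (q * ((n / 4 : ℕ) * (n / 4 : ℕ)))])
  have h6 : (p * n ^ 2 / 64)⁻¹ = 64 * (LL n d / p) := by rw [LL, if_neg hd]; field_simp
  linarith

lemma lacks (n d : ℕ) (p : ℝ) (hp : 0 ≤ p ∧ p ≤ 1) : ∃ μ, Dep n d p μ ∧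
    (1 ≤ n → d ≤ n → μ.real (PP n) ≤ 3 * (p / UU n d) + (p / UU n d) ^ 2) := by
  let q : unitInterval := ⟨p, hp⟩
  have hp0 := hp.1
  rcases le_total √(n : ℝ) (d + 1) with h | h
  · have hD := block q (cd n (d + 1)) d (cd_fib d)
    refine ⟨_, hD, fun hn hd => ?_⟩
    have := hD.1
    have h1 := cd_empty (n := n) q d
    have h2 := measureReal_mono (μ := (coin _ q).map (gr (cd n (d + 1))))
      (s₁ := PP n) (s₂ := {⊥}ᶜ) (fun G hG => ne_bot hn hG) (measure_ne_top _ _)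
    rw [probReal_compl_eq_one_sub (ms _)] at h2
    have hn' : (1 : ℝ) ≤ n := by exact_mod_cast hn
    have hd' : (d : ℝ) ≤ n := by exact_mod_cast hd
    have h3 : (q : ℝ) * (n * (n / (d + 1) + 1)) ≤ 3 * (p / UU n d) := by
      rw [UU, max_eq_right h]
      simp only [q]
      have : (1 : ℝ) ≤ 2 * (n / (d + 1)) := by
        rw [← mul_div_assoc, le_div_iff₀ (by positivity)]; linarith
      have h4 : p / ((d + 1) / n ^ 2) = p * n * (n / (d + 1)) := by field_simp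
      rw [h4]
      nlinarith [mul_nonneg hp0 (Nat.cast_nonneg n : (0 : ℝ) ≤ n)]
    nlinarith [sq_nonneg (p / UU n d)]
  · have hD := block q (cd n 1) 0 (cd_fib 0)
    refine ⟨_, hD.mono (Nat.zero_le _), fun hn hd => (small0 hD hn hp0).trans ?_⟩
    rw [UU, max_eq_left h]
    have : 0 ≤ p / (√n / n ^ 2) := by positivity
    simp only [q]
    linarith

lemma as_of {μ : ∀ n : ℕ, Measure (SimpleGraph (Fin n))} (hμ : ∀ n, IsProbabilityMeasure (μ n))
    {A : ∀ n : ℕ, Set (SimpleGraph (Fin n))} {b : ℕ → ℝ} (hb : Tendsto b atTop (𝓝 0))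
    (h : ∀ᶠ n in atTop, 1 - (μ n).real (A n) ≤ b n) : AS μ A := by
  have h1 : Tendsto (fun n => 1 - b n) atTop (𝓝 1) := by simpa using hb.const_sub 1
  exact tendsto_of_tendsto_of_tendsto_of_le_of_le' h1 tendsto_const_nhds
    (h.mono fun n hn => by linarith) (Eventually.of_forall fun n => measureReal_le_one)

lemma LL_pos {n : ℕ} (hn : 1 ≤ n) (d : ℕ) : 0 < LL n d := by
  have hn' : (0 : ℝ) < n := by exact_mod_cast hn
  unfold LL; split_ifs <;> positivity

lemma LU (n d : ℕ) : LL n d ≤ UU n d := by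
  unfold LL UU
  split_ifs
  · gcongr; exact le_max_left _ _
  · gcongr; exact le_max_of_le_right (by simp)

lemma pos_of {f p : ℕ → ℝ} (hf : ∀ n, 1 ≤ n → 0 < f n) (hp : ∀ n, 0 ≤ p n) (h : f =o[atTop] p) :
    ∀ᶠ n in atTop, 0 < p n := by
  filter_upwards [h.def one_pos, eventually_ge_atTop 1] with n h1 h2
  rw [one_mul, Real.norm_of_nonneg (hp n), Real.norm_of_nonneg (hf n h2).le] at h1
  linarith [hf n h2]

lemma thr : Thr PP LL UU := by
  refine ⟨LU, fun d p hd hp => ⟨fun h μ hμ => ?_, fun h μ hμ => ?_, fun h1 h2 => ⟨?_, ?_⟩⟩⟩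
  · have hx := h.tendsto_div_nhds_zero
    refine as_of (fun n => (hμ n).1) (b := fun n => p n / LL n (d n) + (p n / LL n (d n)) ^ 2)
      (by simpa using hx.add (hx.pow 2)) ((eventually_ge_atTop 1).mono fun n hn => ?_)
    have := (hμ n).1
    rw [probReal_compl_eq_one_sub (ms _), sub_sub_cancel, LL]
    split_ifs with h0
    · exact small0 (h0 ▸ hμ n) hn (hp n).1
    · exact (small1 (hμ n) hn (hp n).1).trans (le_add_of_nonneg_right (sq_nonneg _))
  · have hx := h.tendsto_div_nhds_zero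
    refine as_of (fun n => (hμ n).1) (b := fun n => 16 * (UU n (d n) / p n))
      (by simpa using hx.const_mul 16) ?_
    filter_upwards [pos_of (fun n hn => (LL_pos hn _).trans_le (LU n _)) (fun n => (hp n).1) h,
      eventually_ge_atTop 2, hx.eventually_le_const (by norm_num : (0 : ℝ) < 1 / 8)] with n a b c
    exact big (hμ n) b a c
  · choose μ hμ hb using fun n => has n (d n) (p n) (hp n)
    have hx := h1.tendsto_div_nhds_zero
    refine ⟨μ, hμ, as_of (fun n => (hμ n).1) (b := fun n => 64 * (LL n (d n) / p n))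
      (by simpa using hx.const_mul 64) ?_⟩
    filter_upwards [pos_of (fun n hn => LL_pos hn _) (fun n => (hp n).1) h1,
      eventually_ge_atTop 4, (h1.trans h2).def (by norm_num : (0 : ℝ) < 1 / 2)] with n a b c
    refine hb n (fun h0 => ?_) b a
    have h3 := LL_pos (n := n) (by omega) (d n)
    have h4 : UU n (d n) = LL n (d n) := by
      rw [UU, LL, if_pos h0, h0, max_eq_left]
      simp only [Nat.cast_zero, zero_add, Real.one_le_sqrt]
      exact_mod_cast (by omega : 1 ≤ n)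
    rw [h4, Real.norm_of_nonneg h3.le] at c
    linarith
  · choose μ hμ hb using fun n => lacks n (d n) (p n) (hp n)
    have hx := h2.tendsto_div_nhds_zero
    refine ⟨μ, hμ, as_of (fun n => (hμ n).1)
      (b := fun n => 3 * (p n / UU n (d n)) + (p n / UU n (d n)) ^ 2)
      (by simpa using (hx.const_mul 3).add (hx.pow 2)) ?_⟩
    obtain ⟨C, hC0, hC⟩ := hd.exists_pos
    filter_upwards [hC.bound, eventually_ge_atTop 1,
      (Real.tendsto_log_atTop.comp tendsto_natCast_atTop_atTop).eventually_ge_atTop C] with n a b c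
    have := (hμ n).1
    rw [probReal_compl_eq_one_sub (ms _), sub_sub_cancel]
    refine hb n b ?_
    have c' : C ≤ Real.log n := c
    have h5 : 0 < Real.log n := by linarith
    rw [Real.norm_of_nonneg (by positivity), Real.norm_of_nonneg (by positivity), ← mul_div_assoc,
      le_div_iff₀ h5] at a
    have : (d n : ℝ) ≤ n := by
      by_contra h6
      nlinarith [(Nat.cast_nonneg n : (0 : ℝ) ≤ n)]
    exact_mod_cast this

theorem result : ∃ (P : ∀ n : ℕ, Set (SimpleGraph (Fin n))) (L U : ℕ → ℕ → ℝ),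
    (∀ n, IsUpperSet (P n)) ∧
    (∀ n (G H : SimpleGraph (Fin n)), Nonempty (G ≃g H) → G ∈ P n → H ∈ P n) ∧
    (∀ n d, 1 ≤ n → 0 < L n d) ∧ Thr P L U ∧
    ¬ ∃ f : ℕ → ℝ, ∀ d : ℕ → ℕ, Adm d →
      (fun n => U n (d n) / L n (d n)) =O[atTop] (fun n => f (d n)) := by
  refine ⟨PP, LL, UU, fun n G H hGH hG => ?_, fun n G H ⟨φ⟩ hG => ?_, fun n d hn => LL_pos hn d,
    thr, fun ⟨f, hf⟩ => ?_⟩
  · rcases hG with ⟨u, v, w, h1, h2, h3⟩ | h
    · exact Or.inl ⟨u, v, w, h1, hGH h2, hGH h3⟩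
    · refine Or.inr (h.trans ?_)
      exact_mod_cast Set.ncard_le_ncard (SimpleGraph.edgeSet_mono hGH) (Set.toFinite _)
  · rcases hG with ⟨u, v, w, h1, h2, h3⟩ | h
    · exact Or.inl ⟨φ u, φ v, φ w, φ.injective.ne h1, φ.map_adj_iff.2 h2, φ.map_adj_iff.2 h3⟩
    · refine Or.inr (h.trans (le_of_eq ?_))
      exact_mod_cast Set.ncard_congr' φ.mapEdgeSet
  · have h1 : Adm (fun _ => 1) := by
      refine IsBigO.of_bound 1 ((eventually_ge_atTop 2).mono fun n hn => ?_)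
      have hn' : (2 : ℝ) ≤ n := by exact_mod_cast hn
      have h5 : 0 < Real.log n := Real.log_pos (by linarith)
      rw [Real.norm_of_nonneg (by positivity), Real.norm_of_nonneg (by positivity), one_mul,
        le_div_iff₀ h5]
      simp only [Nat.cast_one, one_mul]
      linarith [Real.log_le_sub_one_of_pos (by linarith : (0 : ℝ) < n)]
    obtain ⟨C, hC⟩ := (hf _ h1).bound
    have h2 := (Real.tendsto_sqrt_atTop.comp tendsto_natCast_atTop_atTop).eventually_gt_atTop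
      (C * ‖f 1‖)
    obtain ⟨n, a, b, c⟩ := (hC.and (h2.and (eventually_ge_atTop 1))).exists
    have hn' : (0 : ℝ) < n := by exact_mod_cast c
    have h3 : UU n 1 / LL n 1 = max √(n : ℝ) ((1 : ℕ) + 1) := by
      rw [UU, LL, if_neg one_ne_zero]; field_simp
    rw [h3] at a
    have b' : C * ‖f 1‖ < √(n : ℝ) := b
    linarith [le_max_left √(n : ℝ) ((1 : ℕ) + 1), Real.le_norm_self (max √(n : ℝ) ((1 : ℕ) + 1))]

end Pool.Agent.Results.MP_cca6ac_pr.No
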